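import Pool.Agent.Helper26.TD.Defs

/-!
# TA-4 (MP_277c78_nt): the integers prime to `P` (logarithmic density, number of prime factors)
-/

set_option autoImplicit false

namespace Pool.Agent.Helper52.TA

open Finset Filter Topology Pool.Agent.Helper26.TD

open Classical in
/-- `F(S) = ∑_{n ≤ N', S-free} 1 / n`: `F(S) (1 - 1 / p) ≤ F(S ∪ {p})`, and `(1 - 1/p)⁻¹ ≤ exp (1/p + 1/(p(p-1)))` -/
theorem free_ge {z y N' : ℕ} (hz : 1 ≤ z) :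
    Real.log N' ≤ Real.exp (LL (PP z y) + 1 / (z : ℝ)) *
      ∑ a ∈ (Icc 1 N').filter (fun a => ∀ p ∈ PP z y, ¬ p ∣ a), 1 / (a : ℝ) := by
  sorry

open Classical in
/-- `V_p = ∑ v_p(a) / a ≤ F / (p - 1)` (`V_p ≤ (F + V_p) / p`), `∑ 1 / (p (p - 1)) ≤ 1`, Markov -/
theorem markov {z y N' J : ℕ} (hy : y ≤ N') (hJ : 0 < J) :
    (1 - (Pool.Agent.Helper16.UB.W z + (Pool.Agent.Helper16.UB.W N' - Pool.Agent.Helper16.UB.W y) + 1) / J) *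
      ∑ a ∈ (Icc 1 N').filter (fun a => ∀ p ∈ PP z y, ¬ p ∣ a), 1 / (a : ℝ) ≤
    ∑ a ∈ (Icc 1 N').filter (fun a => (∀ p ∈ PP z y, ¬ p ∣ a) ∧ ArithmeticFunction.cardFactors a ≤ J),
      1 / (a : ℝ) := by
  sorry

end Pool.Agent.Helper52.TA
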