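import Pool.Agent.Helper26.TD.Tails

/-!
# TA-1, TA-2 (MP_277c78_nt): Poisson averages of a decreasing sequence

`TT t x = ∑ t_k x^k / k!` for a decreasing sequence `0 ≤ t ≤ 1` with `t_k ≥ c / k` for `k ≥ k1`.
-/

set_option autoImplicit false

namespace Pool.Agent.Helper52.TA

open Finset Filter Topology

/-- the exponential generating function `∑ t_k x^k / k!` -/
noncomputable def TT (t : ℕ → ℝ) (x : ℝ) : ℝ := ∑' k : ℕ, t k * x ^ k / (k.factorial : ℝ)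

structure Nice (t : ℕ → ℝ) (c : ℝ) (k1 : ℕ) : Prop where
  nonneg : ∀ k, 0 ≤ t k
  le_one : ∀ k, t k ≤ 1
  anti : Antitone t
  cpos : 0 < c
  ge : ∀ k, k1 ≤ k → c / (k : ℝ) ≤ t k

theorem summ {t : ℕ → ℝ} {c : ℝ} {k1 : ℕ} (h : Nice t c k1) {x : ℝ} (hx : 0 ≤ x) :
    Summable fun k : ℕ => t k * x ^ k / (k.factorial : ℝ) := by
  sorry

theorem sum_le_TT {t : ℕ → ℝ} {c : ℝ} {k1 : ℕ} (h : Nice t c k1) {x : ℝ} (hx : 0 ≤ x) (s : Finset ℕ) :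
    ∑ k ∈ s, t k * x ^ k / (k.factorial : ℝ) ≤ TT t x := by
  sorry

theorem TT_le_exp {t : ℕ → ℝ} {c : ℝ} {k1 : ℕ} (h : Nice t c k1) {x : ℝ} (hx : 0 ≤ x) :
    TT t x ≤ Real.exp x := by
  sorry

/-- `P(Poi(x) ≤ 2x) ≥ 1/2` (Markov) and `t k ≥ t ⌊2x⌋ ≥ c / (2 x)` for `k ≤ 2x` -/
theorem TT_ge {t : ℕ → ℝ} {c : ℝ} {k1 : ℕ} (h : Nice t c k1) :
    ∀ᶠ x : ℝ in atTop, c / (4 * x) * Real.exp x ≤ TT t x := by
  sorry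

/-- `m = J + k`: the factor is `m! / ((m - J)! x ^ J) ≥ ((m0 - J) / x) ^ J ≥ 1 - J (x - m0 + J) / x` (Bernoulli)
for `m ≥ m0 = ⌊x - x^(2/3)⌋`; the terms `m < m0`: `low_tail` (`Helper26.TD.Tails`, `δ = x^(-1/3)`),
the terms `m ≥ K ≥ 3x`: `∑_{m ≥ K} x^m / m! ≤ 2^(-K) e^(2x)`; both are small against `TT_ge`. -/
theorem shift {t : ℕ → ℝ} {c : ℝ} {k1 : ℕ} (h : Nice t c k1) {ε : ℝ} (hε : 0 < ε) :
    ∀ᶠ x : ℝ in atTop, ∀ J K : ℕ, (J : ℝ) ^ 4 ≤ x → 3 * x ≤ K →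
      (1 - ε) * TT t x ≤ ∑ k ∈ range K, t (J + k) * x ^ k / (k.factorial : ℝ) := by
  sorry

end Pool.Agent.Helper52.TA
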