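import Pool.Agent.Helper26.TD.Defs

/-!
# TA-3 (MP_277c78_nt): `n = a * s`, `a` prime to `P`, `s` a product of `k ≤ K` primes of `P` (with multiplicity)
-/

set_option autoImplicit false

namespace Pool.Agent.Helper52.TA

open Finset Filter Topology Pool.Agent.Helper26.TD

/-- the products of exactly `k` primes of `P` -/
noncomputable def HS (P : Finset ℕ) (y k : ℕ) : Finset ℕ := by
  classical
  exact (Icc 1 (y ^ k)).filter fun s => ArithmeticFunction.cardFactors s = k ∧ ∀ p : ℕ, p.Prime → p ∣ s → p ∈ P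

/-- `LL P * ∑_{s ∈ HS k} 1 / s ≤ (k + 1) ∑_{s ∈ HS (k + 1)} 1 / s`: each `n ∈ HS (k + 1)` is `p * s` for at most
`k + 1` pairs (`p ∈ n.primeFactors`). -/
theorem HS_ge {P : Finset ℕ} {y : ℕ} (hP : ∀ p ∈ P, p.Prime ∧ p ≤ y) (k : ℕ) :
    LL P ^ k / (k.factorial : ℝ) ≤ ∑ s ∈ HS P y k, 1 / (s : ℝ) := by
  sorry

theorem lower_prod {t : ℕ → ℝ} (h0 : ∀ k, 0 ≤ t k) (ha : Antitone t) {P : Finset ℕ} {y N' K N J : ℕ}
    (hP : ∀ p ∈ P, p.Prime ∧ p ≤ y) (hy : 1 ≤ y) (hN : N' * y ^ K ≤ N) :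
    (∑ a ∈ (Icc 1 N').filter (fun a => (∀ p ∈ P, ¬ p ∣ a) ∧ ArithmeticFunction.cardFactors a ≤ J),
        1 / (a : ℝ)) *
      (∑ k ∈ range (K + 1), t (J + k) * LL P ^ k / (k.factorial : ℝ)) ≤
    ∑ n ∈ Icc 1 N, t (ArithmeticFunction.cardFactors n) * (1 / (n : ℝ)) := by
  sorry

end Pool.Agent.Helper52.TA
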