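import Pool.Agent.Helper52.TA.Gen

/-!
# TA-6 (MP_277c78_nt): the Poisson averages vary slowly
-/

set_option autoImplicit false

namespace Pool.Agent.Helper52.TA

open Finset Filter Topology

/-- partial sums of `∑ t_n (x + d)^n / n!`, binomial theorem, `t (j + k) ≤ t k` -/
theorem TT_add_le {t : ℕ → ℝ} {c : ℝ} {k1 : ℕ} (h : Nice t c k1) {x d : ℝ} (hx : 0 ≤ x) (hd : 0 ≤ d) :
    TT t (x + d) ≤ TT t x * Real.exp d := by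
  sorry

/-- `TT t (x + d) ≥ ∑_{j ≤ J, k < K} t (j + k) d^j / j! x^k / k!` (binomial theorem)
`≥ (∑_{j ≤ J} d^j / j!) ∑_{k < K} t (J + k) x^k / k!`, then `shift` with `J = ⌊x^(1/4)⌋`, `K = ⌈3x⌉`, and
`∑_{j > J} d^j / j! ≤ 2^(-J) e^(2d)`, `d ≤ 5 log x`. -/
theorem TT_add_ge {t : ℕ → ℝ} {c : ℝ} {k1 : ℕ} (h : Nice t c k1) {ε : ℝ} (hε : 0 < ε) :
    ∀ᶠ x : ℝ in atTop, ∀ d : ℝ, 0 ≤ d → d ≤ 5 * Real.log x →
      (1 - ε) * (TT t x * Real.exp d) ≤ TT t (x + d) := by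
  sorry

end Pool.Agent.Helper52.TA
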